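import Pool.Agent.X5.SDK.Len

/-!
The height of a solution of Fermat's equation with small digits at a large base.
-/

set_option autoImplicit false

namespace Pool.Agent.X5.SDK

open Polynomial Finset NumberField Height

variable {K : Type*} [Field K] [NumberField K]

theorem mulHeight_int_le (P : Fin 3 → 𝓞 K) (hP : (fun i => ((P i : 𝓞 K) : K)) ≠ 0) (B : ℝ)
    (hB : ∀ v : InfinitePlace K, ∀ i, v.1 ((P i : 𝓞 K) : K) ≤ B) :
    mulHeight (fun i => ((P i : 𝓞 K) : K)) ≤ B ^ Module.finrank ℚ K := by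
  rw [NumberField.mulHeight_eq hP]
  obtain ⟨w⟩ := (inferInstance : Nonempty (InfinitePlace K))
  have h0 : 0 ≤ B := (w.1.nonneg _).trans (hB w 0)
  have h1 : (∏ᶠ v : FinitePlace K, ⨆ i, v ((P i : 𝓞 K) : K)) ≤ 1 := by
    refine finprod_induction (fun x : ℝ => 0 ≤ x ∧ x ≤ 1) ⟨zero_le_one, le_rfl⟩ ?_ ?_ |>.2
    · rintro x y ⟨hx0, hx1⟩ ⟨hy0, hy1⟩
      exact ⟨mul_nonneg hx0 hy0, mul_le_one₀ hx1 hy0 hy1⟩
    · intro v
      refine ⟨Real.iSup_nonneg_of_nonnegHomClass _ _, ciSup_le fun i => ?_⟩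
      rw [← FinitePlace.norm_embedding_eq]
      exact FinitePlace.norm_le_one K v.maximalIdeal (P i)
  have h2 : (∏ v : InfinitePlace K, (⨆ i, v ((P i : 𝓞 K) : K)) ^ v.mult) ≤
      B ^ Module.finrank ℚ K := by
    calc (∏ v : InfinitePlace K, (⨆ i, v ((P i : 𝓞 K) : K)) ^ v.mult)
        ≤ ∏ v : InfinitePlace K, B ^ v.mult := by
          apply Finset.prod_le_prod
          · intro v _
            exact pow_nonneg (Real.iSup_nonneg_of_nonnegHomClass _ _) _
          · intro v _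
            refine pow_le_pow_left₀ (Real.iSup_nonneg_of_nonnegHomClass _ _) ?_ _
            exact ciSup_le fun i => hB v i
      _ = B ^ Module.finrank ℚ K := by
          rw [Finset.prod_pow_eq_pow_sum, InfinitePlace.sum_mult_eq]
  calc (∏ v : InfinitePlace K, (⨆ i, v ((P i : 𝓞 K) : K)) ^ v.mult) *
      (∏ᶠ v : FinitePlace K, ⨆ i, v ((P i : 𝓞 K) : K))
      ≤ (∏ v : InfinitePlace K, (⨆ i, v ((P i : 𝓞 K) : K)) ^ v.mult) * 1 := by
        refine mul_le_mul_of_nonneg_left h1 (Finset.prod_nonneg fun v _ => ?_)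
        exact pow_nonneg (Real.iSup_nonneg_of_nonnegHomClass _ _) _
    _ ≤ B ^ Module.finrank ℚ K := by rw [mul_one]; exact h2

/-- all the conclusions together -/
theorem fermat_main (n : ℕ) (hn : 3 ≤ n) (b : 𝓞 K) (f g h : (𝓞 K)[X]) (H : ℝ)
    (hf : ∀ v : InfinitePlace K, len v.1 (mp f) ≤ H)
    (hg : ∀ v : InfinitePlace K, len v.1 (mp g) ≤ H)
    (hh : ∀ v : InfinitePlace K, len v.1 (mp h) ≤ H)
    (hb : ∀ v : InfinitePlace K, 3 * H ^ n < v.1 (b : K))
    (hf0 : f.eval b ≠ 0) (hg0 : g.eval b ≠ 0) (hh0 : h.eval b ≠ 0)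
    (he : f.eval b ^ n + g.eval b ^ n = h.eval b ^ n) :
    ∃ (x y z : K) (w : K[X]), x ≠ 0 ∧ y ≠ 0 ∧ z ≠ 0 ∧ x ^ n + y ^ n = z ^ n ∧
      mp f = C x * w ∧ mp g = C y * w ∧ mp h = C z * w ∧
      mulHeight ![x, y, z] ≤ H ^ Module.finrank ℚ K ∧
      mulHeight ![((f.eval b : 𝓞 K) : K), ((g.eval b : 𝓞 K) : K), ((h.eval b : 𝓞 K) : K)] =
        mulHeight ![x, y, z] := by
  have hne : ∀ p : (𝓞 K)[X], p.eval b ≠ 0 → p ≠ 0 := by
    rintro p hp rfl
    exact hp eval_zero
  obtain ⟨x, y, z, w, hx, hy, hz, hw, hxyz, e1, e2, e3⟩ :=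
    fermat_digits n hn b f g h H hf hg hh hb (hne f hf0) (hne g hg0) (hne h hh0) he
  have hev : ∀ p : (𝓞 K)[X], ((p.eval b : 𝓞 K) : K) = (mp p).eval (b : K) := by
    intro p
    rw [mp, eval_map_algebraMap, aeval_algebraMap_apply, coe_aeval_eq_eval]
  have hwb : w.eval (b : K) ≠ 0 := by
    intro h0
    have h1 := hev f
    rw [e1, eval_mul, h0, mul_zero] at h1
    exact hf0 (by exact_mod_cast h1)
  refine ⟨x, y, z, w, hx, hy, hz, hxyz, e1, e2, e3, ?_, ?_⟩
  · obtain ⟨i, hi⟩ : ∃ i, w.coeff i ≠ 0 := by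
      by_contra h0
      push Not at h0
      exact hw (Polynomial.ext fun i => by rw [h0 i, coeff_zero])
    have hc : ∀ p : (𝓞 K)[X], ((p.coeff i : 𝓞 K) : K) = (mp p).coeff i := fun p => by
      rw [mp, coeff_map]
    have h1 : (fun j => ((![f.coeff i, g.coeff i, h.coeff i] j : 𝓞 K) : K)) =
        w.coeff i • ![x, y, z] := by
      funext j
      fin_cases j
      · simp only [Fin.zero_eta, Fin.isValue, Matrix.cons_val_zero, Pi.smul_apply, smul_eq_mul]
        rw [hc f, e1, coeff_C_mul, mul_comm]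
      · simp only [Fin.mk_one, Fin.isValue, Matrix.cons_val_one, Matrix.cons_val_zero,
          Pi.smul_apply, smul_eq_mul]
        rw [hc g, e2, coeff_C_mul, mul_comm]
      · simp only [Fin.reduceFinMk, Fin.isValue, Matrix.cons_val, Pi.smul_apply, smul_eq_mul]
        rw [hc h, e3, coeff_C_mul, mul_comm]
    have h2 : (fun j => ((![f.coeff i, g.coeff i, h.coeff i] j : 𝓞 K) : K)) ≠ 0 := by
      rw [h1]
      intro h3
      have h4 := congrFun h3 0
      simp only [Pi.smul_apply, Matrix.cons_val_zero, smul_eq_mul, Pi.zero_apply] at h4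
      exact (mul_ne_zero hi hx) h4
    rw [← mulHeight_smul_eq_mulHeight ![x, y, z] hi, ← h1]
    refine mulHeight_int_le _ h2 H fun v j => ?_
    fin_cases j
    · exact (le_of_eq (congrArg v.1 (hc f))).trans ((coeff_le_len v.1 (mp f) i).trans (hf v))
    · exact (le_of_eq (congrArg v.1 (hc g))).trans ((coeff_le_len v.1 (mp g) i).trans (hg v))
    · exact (le_of_eq (congrArg v.1 (hc h))).trans ((coeff_le_len v.1 (mp h) i).trans (hh v))
  · rw [← mulHeight_smul_eq_mulHeight ![x, y, z] hwb]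
    congr 1
    funext j
    fin_cases j
    · simp only [Fin.zero_eta, Fin.isValue, Matrix.cons_val_zero, Pi.smul_apply, smul_eq_mul]
      rw [hev f, e1, eval_mul, eval_C, mul_comm]
    · simp only [Fin.mk_one, Fin.isValue, Matrix.cons_val_one, Matrix.cons_val_zero,
        Pi.smul_apply, smul_eq_mul]
      rw [hev g, e2, eval_mul, eval_C, mul_comm]
    · simp only [Fin.reduceFinMk, Fin.isValue, Matrix.cons_val, Pi.smul_apply, smul_eq_mul]
      rw [hev h, e3, eval_mul, eval_C, mul_comm]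

end Pool.Agent.X5.SDK
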