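import Mathlib

/-!
Length of a polynomial at an absolute value; a polynomial with integral coefficients of small length
has no large roots; Fermat's equation at a large base with small digits is a polynomial identity.
-/

set_option autoImplicit false

namespace Pool.Agent.X5.SDK

open Polynomial Finset NumberField

section len

variable {K : Type*} [Field K] (v : AbsoluteValue K ℝ)

/-- the sum of the absolute values of the coefficients -/
noncomputable def len (p : K[X]) : ℝ := ∑ i ∈ range (p.natDegree + 1), v (p.coeff i)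

/-- the polynomial of the absolute values of the coefficients -/
noncomputable def ab (p : K[X]) : ℝ[X] :=
  ∑ i ∈ range (p.natDegree + 1), monomial i (v (p.coeff i))

theorem ab_coeff (p : K[X]) (i : ℕ) : (ab v p).coeff i = v (p.coeff i) := by
  unfold ab
  rw [finsetSum_coeff]
  by_cases h : i ≤ p.natDegree
  · rw [Finset.sum_eq_single i]
    · simp
    · intro j _ hj
      rw [coeff_monomial, if_neg hj]
    · intro h1
      exact absurd (mem_range.2 (by omega)) h1
  · rw [coeff_eq_zero_of_natDegree_lt (by omega : p.natDegree < i), map_zero]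
    refine Finset.sum_eq_zero fun j hj => ?_
    rw [mem_range] at hj
    rw [coeff_monomial, if_neg (by omega)]

theorem ab_eval (p : K[X]) : (ab v p).eval 1 = len v p := by
  unfold ab len
  rw [eval_finsetSum]
  exact Finset.sum_congr rfl fun i _ => by rw [eval_monomial, one_pow, mul_one]

/-- domination -/
theorem len_le_of_dom {p : K[X]} {F : ℝ[X]} (h : ∀ i, v (p.coeff i) ≤ F.coeff i) :
    len v p ≤ F.eval 1 := by
  have h0 : ∀ i, 0 ≤ F.coeff i := fun i => (v.nonneg _).trans (h i)
  unfold len
  rw [eval_eq_sum_range]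
  simp only [one_pow, mul_one]
  have h1 : ∑ i ∈ range (p.natDegree + 1), v (p.coeff i) ≤
      ∑ i ∈ range (p.natDegree + 1), F.coeff i := sum_le_sum fun i _ => h i
  refine h1.trans ?_
  rcases Nat.le_total (p.natDegree + 1) (F.natDegree + 1) with h2 | h2
  · exact sum_le_sum_of_subset_of_nonneg (range_mono h2) fun j _ _ => h0 j
  · refine le_of_eq (sum_subset (range_mono h2) fun j _ hj => ?_).symm
    rw [mem_range, not_lt] at hj
    exact coeff_eq_zero_of_natDegree_lt (by omega)

theorem len_nonneg (p : K[X]) : 0 ≤ len v p := Finset.sum_nonneg fun _ _ => v.nonneg _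

theorem coeff_le_len (p : K[X]) (i : ℕ) : v (p.coeff i) ≤ len v p := by
  by_cases h : i ≤ p.natDegree
  · exact single_le_sum (f := fun j => v (p.coeff j)) (fun j _ => v.nonneg _)
      (mem_range.2 (by omega))
  · rw [coeff_eq_zero_of_natDegree_lt (by omega : p.natDegree < i), map_zero]
    exact len_nonneg v p

theorem len_mul (p q : K[X]) : len v (p * q) ≤ len v p * len v q := by
  rw [← ab_eval v p, ← ab_eval v q, ← eval_mul]
  refine len_le_of_dom v fun i => ?_
  rw [coeff_mul, coeff_mul]
  refine (v.sum_le _ _).trans (sum_le_sum fun x _ => ?_)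
  rw [map_mul, ab_coeff, ab_coeff]

theorem len_add (p q : K[X]) : len v (p + q) ≤ len v p + len v q := by
  rw [← ab_eval v p, ← ab_eval v q, ← eval_add]
  refine len_le_of_dom v fun i => ?_
  rw [coeff_add, coeff_add, ab_coeff, ab_coeff]
  exact v.add_le _ _

theorem len_neg (p : K[X]) : len v (-p) = len v p := by
  unfold len
  rw [natDegree_neg]
  exact Finset.sum_congr rfl fun i _ => by rw [coeff_neg, v.map_neg]

theorem len_one : len v (1 : K[X]) = 1 := by
  unfold len
  simp

theorem len_pow (p : K[X]) (n : ℕ) : len v (p ^ n) ≤ len v p ^ n := by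
  induction n with
  | zero => rw [pow_zero, pow_zero, len_one]
  | succ n ih =>
    rw [pow_succ, pow_succ]
    exact (len_mul v _ _).trans (mul_le_mul_of_nonneg_right ih (len_nonneg v p))

/-- a root of a polynomial with large leading coefficient is at most the length -/
theorem root_le (F : K[X]) (hF : 1 ≤ v F.leadingCoeff) (z : K) (hz : F.eval z = 0) :
    v z ≤ len v F := by
  have h1 : 1 ≤ len v F := hF.trans (coeff_le_len v F _)
  by_contra hlt
  rw [not_le] at hlt
  have hz1 : 1 < v z := h1.trans_lt hlt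
  have hz0 : 0 < v z := zero_lt_one.trans hz1
  rw [eval_eq_sum_range, sum_range_succ] at hz
  rcases Nat.eq_zero_or_pos F.natDegree with h0 | h0
  · rw [h0] at hz
    simp only [range_zero, sum_empty, zero_add, pow_zero, mul_one] at hz
    rw [leadingCoeff, h0, hz, map_zero] at hF
    linarith
  · obtain ⟨m, hm⟩ := Nat.exists_eq_succ_of_ne_zero h0.ne'
    have h2 : F.coeff F.natDegree * z ^ F.natDegree =
        -∑ i ∈ range F.natDegree, F.coeff i * z ^ i := by linear_combination hz
    have h3 : v (F.coeff F.natDegree * z ^ F.natDegree) ≤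
        (∑ i ∈ range F.natDegree, v (F.coeff i)) * v z ^ m := by
      rw [h2, v.map_neg, sum_mul]
      refine (v.sum_le _ _).trans (sum_le_sum fun i hi => ?_)
      rw [map_mul, map_pow]
      rw [mem_range] at hi
      exact mul_le_mul_of_nonneg_left (pow_le_pow_right₀ hz1.le (by omega)) (v.nonneg _)
    have h4 : v z ^ F.natDegree ≤ v (F.coeff F.natDegree * z ^ F.natDegree) := by
      rw [map_mul, map_pow]
      exact le_mul_of_one_le_left (pow_nonneg hz0.le _) hF
    have h5 : ∑ i ∈ range F.natDegree, v (F.coeff i) ≤ len v F := by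
      unfold len
      rw [sum_range_succ]
      have := v.nonneg (F.coeff F.natDegree)
      linarith
    have h6 : v z ^ F.natDegree ≤ len v F * v z ^ m :=
      h4.trans (h3.trans (mul_le_mul_of_nonneg_right h5 (pow_nonneg hz0.le _)))
    rw [hm, Nat.succ_eq_add_one, pow_succ, mul_comm] at h6
    have h7 : v z ≤ len v F := le_of_mul_le_mul_right h6 (pow_pos hz0 m)
    linarith

end len

variable {K : Type*} [Field K] [NumberField K]

/-- a nonzero integer is at least one at some infinite place -/
theorem exists_one_le (a : 𝓞 K) (ha : a ≠ 0) : ∃ v : InfinitePlace K, 1 ≤ v.1 (a : K) := by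
  obtain ⟨w⟩ := (inferInstance : Nonempty (InfinitePlace K))
  by_contra h
  push Not at h
  have h1 := InfinitePlace.one_le_of_lt_one (w := w) ha fun z _ => h z
  exact absurd h1 (not_le.2 (h w))

/-- the polynomial over the field -/
noncomputable abbrev mp (f : (𝓞 K)[X]) : K[X] := f.map (algebraMap (𝓞 K) K)

/-- a polynomial with integral coefficients whose length at every place is smaller than the base
does not vanish at the base -/
theorem eq_zero_of_small (F : (𝓞 K)[X]) (b : 𝓞 K)
    (h : ∀ v : InfinitePlace K, len v.1 (mp F) < v.1 (b : K)) (hb : F.eval b = 0) : F = 0 := by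
  by_contra h0
  obtain ⟨v, hv⟩ := exists_one_le F.leadingCoeff (leadingCoeff_ne_zero.2 h0)
  have h1 : (mp F).leadingCoeff = ((F.leadingCoeff : 𝓞 K) : K) :=
    leadingCoeff_map_of_injective (FaithfulSMul.algebraMap_injective (𝓞 K) K) F
  have h2 : (mp F).eval (b : K) = 0 := by
    rw [mp, eval_map_algebraMap, aeval_algebraMap_apply, coe_aeval_eq_eval, hb, map_zero]
  have h3 := root_le v.1 (mp F) (by rw [h1]; exact hv) (b : K) h2
  exact absurd (h v) (not_lt.2 h3)

/-- **Fermat's equation with small digits is a polynomial identity**, and all digit triples are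
proportional to one solution in the field. -/
theorem fermat_digits (n : ℕ) (hn : 3 ≤ n) (b : 𝓞 K) (f g h : (𝓞 K)[X]) (H : ℝ)
    (hf : ∀ v : InfinitePlace K, len v.1 (mp f) ≤ H)
    (hg : ∀ v : InfinitePlace K, len v.1 (mp g) ≤ H)
    (hh : ∀ v : InfinitePlace K, len v.1 (mp h) ≤ H)
    (hb : ∀ v : InfinitePlace K, 3 * H ^ n < v.1 (b : K))
    (hf0 : f ≠ 0) (hg0 : g ≠ 0) (hh0 : h ≠ 0)
    (he : f.eval b ^ n + g.eval b ^ n = h.eval b ^ n) :
    ∃ (x y z : K) (w : K[X]), x ≠ 0 ∧ y ≠ 0 ∧ z ≠ 0 ∧ w ≠ 0 ∧ x ^ n + y ^ n = z ^ n ∧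
      mp f = C x * w ∧ mp g = C y * w ∧ mp h = C z * w := by
  have hinj := FaithfulSMul.algebraMap_injective (𝓞 K) K
  have hid : f ^ n + g ^ n - h ^ n = 0 := by
    refine eq_zero_of_small _ b (fun v => ?_) ?_
    · have e1 : mp (f ^ n + g ^ n - h ^ n) = (mp f) ^ n + (mp g) ^ n + -(mp h) ^ n := by
        rw [mp, mp, mp, mp, Polynomial.map_sub, Polynomial.map_add, Polynomial.map_pow,
          Polynomial.map_pow, Polynomial.map_pow, sub_eq_add_neg]
      rw [e1]
      have h1 : len v.1 ((mp f) ^ n) ≤ H ^ n :=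
        (len_pow v.1 _ n).trans (pow_le_pow_left₀ (len_nonneg _ _) (hf v) n)
      have h2 : len v.1 ((mp g) ^ n) ≤ H ^ n :=
        (len_pow v.1 _ n).trans (pow_le_pow_left₀ (len_nonneg _ _) (hg v) n)
      have h3 : len v.1 (-(mp h) ^ n) ≤ H ^ n := by
        rw [len_neg]
        exact (len_pow v.1 _ n).trans (pow_le_pow_left₀ (len_nonneg _ _) (hh v) n)
      have h4 := len_add v.1 ((mp f) ^ n + (mp g) ^ n) (-(mp h) ^ n)
      have h5 := len_add v.1 ((mp f) ^ n) ((mp g) ^ n)
      linarith [hb v]
    · rw [eval_sub, eval_add, eval_pow, eval_pow, eval_pow, he, sub_self]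
  have hidK : (mp f) ^ n + (mp g) ^ n = (mp h) ^ n := by
    have := congrArg (Polynomial.map (algebraMap (𝓞 K) K)) hid
    rw [Polynomial.map_sub, Polynomial.map_add, Polynomial.map_pow, Polynomial.map_pow,
      Polynomial.map_pow, Polynomial.map_zero, sub_eq_zero] at this
    exact this
  have h0 : ∀ p : (𝓞 K)[X], p ≠ 0 → mp p ≠ 0 := fun p hp => (Polynomial.map_ne_zero_iff hinj).2 hp
  obtain ⟨w, p, q, r, ⟨e1, e2, e3⟩, u1, u2, u3⟩ :=
    fermatLastTheoremWith'_polynomial (k := K) hn
      (Nat.cast_ne_zero.2 (by omega)) (mp f) (mp g) (mp h) (h0 f hf0) (h0 g hg0) (h0 h hh0) hidK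
  obtain ⟨x, hx, ex⟩ := isUnit_iff.1 u1
  obtain ⟨y, hy, ey⟩ := isUnit_iff.1 u2
  obtain ⟨z, hz, ez⟩ := isUnit_iff.1 u3
  subst ex ey ez
  have hw : w ≠ 0 := by
    rintro rfl
    exact h0 f hf0 (by rw [e1, mul_zero])
  refine ⟨x, y, z, w, hx.ne_zero, hy.ne_zero, hz.ne_zero, hw, ?_, e1, e2, e3⟩
  rw [e1, e2, e3, mul_pow, mul_pow, mul_pow, ← add_mul] at hidK
  have h1 := mul_right_cancel₀ (pow_ne_zero n hw) hidK
  rw [← C_pow, ← C_pow, ← C_pow, ← C_add] at h1
  exact C_injective h1

end Pool.Agent.X5.SDK
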